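import Pool.Agent.W21.TC.Sep

/-!
# Separation of orbits: the theorem
-/

set_option autoImplicit false
set_option linter.unusedSectionVars false
set_option linter.unusedVariables false

namespace Pool.Agent.W21.TC

open Finset Pool.Agent.W547.LD.Comb Pool.Agent.W547.LD Pool.Agent.W495.TC

noncomputable section

section

variable {G : Type} [Group G] [Fintype G] {c : G} (hc : ∀ g, c * g = g * c) {ι : Type}
  (X : ι → Type) [∀ i, Fintype (X i)] [∀ i, MulAction G (X i)]
  (htr : ∀ i (x y : X i), ∃ g : G, g • x = y) (hcard : ∀ i, Fintype.card (X i) ≤ 6)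
  (v : ∀ i, X i → G → ℤ) (hv : ∀ i (x : X i) (g h : G), v i (g • x) h = v i x (h * g))
  (hvc : ∀ i (x : X i), v i (c • x) = -v i x)

/-- The rational functions. -/
def ww (i : ι) (x : X i) : G → ℚ := fun g => (v i x g : ℚ)

include hv in
theorem rtr_ww (i : ι) (x : X i) (g : G) : rtr g (ww X v i x) = ww X v i (g • x) := by
  funext h
  rw [rtr_apply]
  change ((v i x (h * g) : ℤ) : ℚ) = ((v i (g • x) h : ℤ) : ℚ)
  rw [hv]

include hv hvc in
theorem rtr_c_ww (i : ι) (x : X i) : rtr c (ww X v i x) = -ww X v i x := by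
  rw [rtr_ww X v hv]
  funext h
  change ((v i (c • x) h : ℤ) : ℚ) = -((v i x h : ℤ) : ℚ)
  rw [hvc, Pi.neg_apply, Int.cast_neg]

theorem ww_inj (i : ι) (x y : X i) (h : ww X v i x = ww X v i y) : v i x = v i y := by
  funext g
  have h1 := congrFun h g
  change ((v i x g : ℤ) : ℚ) = ((v i y g : ℤ) : ℚ) at h1
  exact_mod_cast h1

/-- The kernel of the action on the functions of an orbit. -/
def kerV (i : ι) : Subgroup G where
  carrier := {g | ∀ x, ww X v i (g • x) = ww X v i x}
  one_mem' := fun x => by rw [one_smul]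
  mul_mem' := fun {g h} h1 h2 x => by rw [mul_smul, h1, h2]
  inv_mem' := fun {g} h x => by
    have h1 := h (g⁻¹ • x)
    rw [smul_inv_smul] at h1
    exact h1.symm

include hv in
theorem kerV_normal (i : ι) : (kerV X v i).Normal where
  conj_mem := fun τ hτ g x => by
    rw [mul_assoc, mul_smul, ← rtr_ww X v hv, mul_smul, hτ, rtr_ww X v hv, smul_inv_smul]

include hc htr hv hvc in
theorem narrow_case (i : ι) (h : ¬ Wide (v i)) (x : X i) : ww X v i x ∈ QQ c := by
  by_cases h0 : ww X v i x = 0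
  · rw [h0]
    exact Submodule.zero_mem _
  refine narrow_mem hc h0 (rtr_c_ww X v hv hvc i x) fun g => ?_
  rw [rtr_ww X v hv]
  by_contra h1
  push Not at h1
  apply h
  refine ⟨g • x, x, ?_, ?_⟩
  · intro h2
    apply h1.1
    funext k
    change ((v i (g • x) k : ℤ) : ℚ) = ((v i x k : ℤ) : ℚ)
    rw [h2]
  · intro h2
    apply h1.2
    funext k
    change ((v i (g • x) k : ℤ) : ℚ) = -((v i x k : ℤ) : ℚ)
    rw [h2, Pi.neg_apply, Int.cast_neg]

include htr hcard hv hvc in
theorem wide_orb (i : ι) (h : Wide (v i)) : Orb c (Set.range (ww X v i)) where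
  stable := by
    rintro g _ ⟨x, rfl⟩
    rw [rtr_ww X v hv]
    exact ⟨_, rfl⟩
  trans := by
    rintro _ ⟨x, rfl⟩ _ ⟨y, rfl⟩
    obtain ⟨g, hg⟩ := htr i x y
    exact ⟨g, by rw [rtr_ww X v hv, hg]⟩
  negc := by
    rintro _ ⟨x, rfl⟩
    exact rtr_c_ww X v hv hvc i x
  ne0 := by
    rintro _ ⟨x, rfl⟩ h0
    obtain ⟨y, z, h1, h2⟩ := h
    have h3 : ∀ y, ww X v i y = 0 := by
      intro y
      obtain ⟨g, hg⟩ := htr i x y
      rw [← hg, ← rtr_ww X v hv, h0, map_zero]
    apply h1
    apply ww_inj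
    rw [h3, h3]
  fin := Set.finite_range _
  card := by
    refine le_trans ?_ (hcard i)
    rw [← Nat.card_eq_fintype_card, ← Nat.card_coe_set_eq]
    exact Nat.card_le_card_of_surjective _ (Set.rangeFactorization_surjective)

end

theorem sep : S_sep := by
  intro G _ _ c hc ι _ X _ _ htr hcard v hv hvc hinj a hsum i
  classical
  let U : ι → G → ℚ := fun i => ∑ x, a i x • ww X v i x
  have hU0 : ∑ i, U i = 0 := hsum
  change U i ∈ QQ c
  let B : Finset ι := Finset.univ.filter fun i => U i ∉ QQ c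
  have hBmem : ∀ i, i ∈ B ↔ U i ∉ QQ c := fun i => by simp [B]
  by_cases hBe : B.Nonempty
  swap
  · rw [Finset.not_nonempty_iff_eq_empty] at hBe
    by_contra h
    have := (hBmem i).2 h
    rw [hBe] at this
    exact absurd this (Finset.notMem_empty i)
  exfalso
  obtain ⟨K, hK, hmin⟩ := Finset.exists_min_image B (fun i => Nat.card (kerV X v i)) hBe
  have hwide : ∀ i ∈ B, Wide (v i) := by
    intro i hi
    by_contra h
    apply (hBmem i).1 hi
    exact Submodule.sum_mem _ fun x _ => Submodule.smul_mem _ _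
      (narrow_case hc X htr v hv hvc i h x)
  apply (hBmem K).1 hK
  have hker : ∀ i (g : G), g ∈ kerV X v i ↔ ∀ x, v i (g • x) = v i x := by
    intro i g
    constructor
    · intro h x
      exact ww_inj X v i _ _ (h x)
    · intro h x
      funext k
      change ((v i (g • x) k : ℤ) : ℚ) = ((v i x k : ℤ) : ℚ)
      rw [h]
  refine sepF hc (wide_orb X htr hcard v hv hvc K (hwide K hK)) (B.erase K)
    (fun i => kerV X v i) (fun i _ => kerV_normal X v hv i) ?_ (U K) U ?_ ?_ ?_
  · intro i hi h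
    have hiB := Finset.mem_of_mem_erase hi
    have hle : kerV X v i ≤ kerV X v K := by
      intro g hg x
      rw [← rtr_ww X v hv]
      exact h g hg _ ⟨x, rfl⟩
    have heq : kerV X v i = kerV X v K :=
      Subgroup.eq_of_le_of_card_ge hle (hmin i hiB)
    apply Finset.ne_of_mem_erase hi
    refine hinj i K (hwide i hiB) (hwide K hK) fun g => ?_
    rw [← hker, ← hker, heq]
  · exact Submodule.sum_mem _ fun x _ => Submodule.smul_mem _ _
      (Submodule.subset_span ⟨x, rfl⟩)
  · intro i _ g hg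
    change rtr g (∑ x, a i x • ww X v i x) = ∑ x, a i x • ww X v i x
    rw [map_sum]
    refine Finset.sum_congr rfl fun x _ => ?_
    rw [map_smul, rtr_ww X v hv, hg]
  · have h1 : U K + ∑ i ∈ B.erase K, U i = ∑ i ∈ B, U i := Finset.add_sum_erase B U hK
    have h2 : ∑ i ∈ B, U i + ∑ i ∈ Bᶜ, U i = 0 := by
      rw [Finset.sum_add_sum_compl]
      exact hU0
    rw [h1, eq_neg_of_add_eq_zero_left h2]
    refine Submodule.neg_mem _ (Submodule.sum_mem _ fun i hi => ?_)
    by_contra h3
    exact (Finset.mem_compl.1 hi) ((hBmem i).2 h3)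

end

end Pool.Agent.W21.TC
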