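import Pool.Agent.W495.TC.Stms

/-!
# Separation of orbits of functions
-/

set_option autoImplicit false
set_option linter.unusedSectionVars false
set_option linter.unusedVariables false

namespace Pool.Agent.W21.TC

open Finset Pool.Agent.W547.LD.Comb Pool.Agent.W547.LD

noncomputable section

variable {G : Type} [Group G] [Fintype G]

theorem rtr_inv_rtr (g : G) (F : G → ℚ) : rtr g⁻¹ (rtr g F) = F := by
  rw [rtr_rtr, inv_mul_cancel, rtr_one]

/-- an orbit of at most six odd functions -/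
structure Orb (c : G) (P : Set (G → ℚ)) : Prop where
  stable : ∀ h, ∀ f ∈ P, rtr h f ∈ P
  trans : ∀ f ∈ P, ∀ f' ∈ P, ∃ g, rtr g f = f'
  negc : ∀ f ∈ P, rtr c f = -f
  ne0 : ∀ f ∈ P, f ≠ 0
  fin : P.Finite
  card : P.ncard ≤ 6

theorem Orb.neg_mem {c : G} {P : Set (G → ℚ)} (h : Orb c P) {f : G → ℚ} (hf : f ∈ P) :
    -f ∈ P := by
  rw [← h.negc f hf]
  exact h.stable c f hf

theorem Orb.ne_neg {c : G} {P : Set (G → ℚ)} (h : Orb c P) {f : G → ℚ} (hf : f ∈ P) :
    f ≠ -f := by
  intro h1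
  exact h.ne0 f hf (self_eq_neg.1 h1)

theorem two_card {c : G} {P : Set (G → ℚ)} (h : Orb c P) {ι : Type} [Fintype ι]
    (r : ι → G → ℚ) (hr : Function.Injective r) (hne : ∀ i k, r i ≠ -(r k))
    (hmem : ∀ i, r i ∈ P) : 2 * Fintype.card ι ≤ P.ncard := by
  have h1 : Function.Injective (Sum.elim r (fun i => -(r i))) := by
    rintro (i | i) (k | k) h
    · exact congrArg Sum.inl (hr h)
    · exact absurd h (hne i k)
    · exact absurd h.symm (hne k i)
    · exact congrArg Sum.inr (hr (neg_injective h))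
  have h2 : Nat.card (ι ⊕ ι) ≤ P.ncard := by
    rw [← Set.ncard_range_of_injective h1]
    refine Set.ncard_le_ncard ?_ h.fin
    rintro _ ⟨i | i, rfl⟩
    · exact hmem i
    · exact h.neg_mem (hmem i)
  rw [Nat.card_sum, Nat.card_eq_fintype_card] at h2
  omega

section

variable {c : G} (hc : ∀ g, c * g = g * c) {P : Set (G → ℚ)} (hP : Orb c P)

include hc hP in
/-- The sum over a normal subgroup that acts non-trivially. -/
theorem sum_memF (M : Subgroup G) [hMn : M.Normal] [Fintype M]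
    (hM : ¬ ∀ h ∈ M, ∀ f ∈ P, rtr h f = f) {S : G → ℚ} (hS : S ∈ P) :
    ∑ h : M, rtr h.1 S ∈ QQ c := by
  by_cases hA : ∃ h0 ∈ M, rtr h0 S = -S
  · obtain ⟨h0, hh0, h1⟩ := hA
    have h2 : ∑ h : M, rtr h.1 S = ∑ h : M, rtr (h * ⟨h0, hh0⟩ : M).1 S :=
      (Fintype.sum_equiv (Equiv.mulRight (⟨h0, hh0⟩ : M)) _ _ fun h => rfl).symm
    have h3 : ∀ h : M, rtr (h * ⟨h0, hh0⟩ : M).1 S = -rtr h.1 S := by
      intro h
      change rtr (h.1 * h0) S = _
      rw [← rtr_rtr, h1, map_neg]
    rw [Finset.sum_congr rfl (fun h _ => h3 h), Finset.sum_neg_distrib] at h2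
    have h4 : ∑ h : M, rtr h.1 S = 0 := self_eq_neg.1 h2
    rw [h4]
    exact Submodule.zero_mem _
  push Not at hA
  -- the group
  let N : Subgroup G :=
    { carrier := {τ | ∃ h ∈ M, rtr τ S = rtr h S}
      one_mem' := ⟨1, M.one_mem, rfl⟩
      mul_mem' := by
        rintro τ τ' ⟨h, hh, h1⟩ ⟨h', hh', h1'⟩
        refine ⟨(τ * h' * τ⁻¹) * h, M.mul_mem (hMn.conj_mem h' hh' τ) hh, ?_⟩
        rw [← rtr_rtr, h1', rtr_rtr, ← rtr_rtr (τ * h' * τ⁻¹), ← h1, rtr_rtr]
        congr 1
        group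
      inv_mem' := by
        rintro τ ⟨h, hh, h1⟩
        refine ⟨(τ⁻¹ * h * τ)⁻¹, M.inv_mem ?_, ?_⟩
        · have := hMn.conj_mem h hh τ⁻¹
          rwa [inv_inv] at this
        · have h2 : S = rtr (τ⁻¹ * h) S := by
            rw [← rtr_rtr, ← h1, rtr_inv_rtr]
          have h3 : rtr (τ⁻¹ * h * τ) (rtr τ⁻¹ S) = S := by
            rw [rtr_rtr, show τ⁻¹ * h * τ * τ⁻¹ = τ⁻¹ * h by group]
            exact h2.symm
          calc rtr τ⁻¹ S = rtr (τ⁻¹ * h * τ)⁻¹ (rtr (τ⁻¹ * h * τ) (rtr τ⁻¹ S)) :=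
                (rtr_inv_rtr _ _).symm
            _ = rtr (τ⁻¹ * h * τ)⁻¹ S := by rw [h3] }
  have hNmem : ∀ τ, τ ∈ N ↔ ∃ h ∈ M, rtr τ S = rtr h S := fun τ => Iff.rfl
  have hcS : rtr c S = -S := hP.negc S hS
  have hN : Imag c N := by
    constructor
    · rintro ⟨h, hh, h1⟩
      exact hA h hh (h1.symm.trans hcS)
    · intro τ hτ
      by_contra hcon
      -- the elements of P are not fixed
      have hmove : ∀ T ∈ P, ∃ h ∈ M, rtr h T ≠ T := by
        intro T hTP
        by_contra h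
        push Not at h
        apply hM
        intro k hk U hU
        obtain ⟨g, hg⟩ := hP.trans T hTP U hU
        rw [← hg, rtr_rtr, show k * g = g * (g⁻¹ * k * g) by group, ← rtr_rtr]
        congr 1
        have := hMn.conj_mem k hk g⁻¹
        rw [inv_inv] at this
        exact h _ this
      set T := rtr τ S with hTdef
      have hTP : T ∈ P := hP.stable τ S hS
      obtain ⟨h1, hh1, h1'⟩ := hmove S hS
      obtain ⟨h2, hh2, h2'⟩ := hmove T hTP
      let A : (G → ℚ) → Prop := fun U => ∃ h ∈ M, U = rtr h S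
      have hAc : ∀ U, A U → ¬ A (-U) := by
        rintro U ⟨h, hh, rfl⟩ ⟨k, hk, h3⟩
        apply hA (h⁻¹ * k) (M.mul_mem (M.inv_mem hh) hk)
        rw [← rtr_rtr, ← h3, map_neg, rtr_inv_rtr]
      have hAT : ∀ h ∈ M, ¬ A (rtr h T) := by
        rintro h hh ⟨k, hk, h3⟩
        apply hτ
        refine ⟨h⁻¹ * k, M.mul_mem (M.inv_mem hh) hk, ?_⟩
        rw [← rtr_rtr, ← h3, rtr_inv_rtr]
      have hATc : ∀ h ∈ M, ¬ A (-(rtr h T)) := by
        rintro h hh ⟨k, hk, h3⟩
        apply hcon
        refine ⟨h⁻¹ * k, M.mul_mem (M.inv_mem hh) hk, ?_⟩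
        have e1 : rtr (c * τ) S = -T := by rw [hc, ← rtr_rtr, hcS, map_neg]
        have e2 : rtr (h⁻¹ * k) S = -T := by rw [← rtr_rtr, ← h3, map_neg, rtr_inv_rtr]
        exact e1.trans e2.symm
      have hTT : ∀ h ∈ M, ∀ k ∈ M, rtr h T ≠ -(rtr k T) := by
        intro h hh k hk h3
        have h4 : rtr (τ⁻¹ * (k⁻¹ * h) * τ) S = -S := by
          have h5 : rtr (k⁻¹ * h) T = -T := by
            rw [← rtr_rtr, h3, map_neg, rtr_inv_rtr]
          rw [← rtr_rtr, ← hTdef, ← rtr_rtr, h5, hTdef, map_neg, rtr_inv_rtr]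
        refine hA _ ?_ h4
        have := hMn.conj_mem (k⁻¹ * h) (M.mul_mem (M.inv_mem hk) hh) τ⁻¹
        rwa [inv_inv] at this
      have hAS : A S := ⟨1, M.one_mem, (rtr_one S).symm⟩
      have hAS1 : A (rtr h1 S) := ⟨h1, hh1, rfl⟩
      have hT1 : rtr 1 T = T := rtr_one T
      let r : Fin 2 ⊕ Fin 2 → G → ℚ := Sum.elim ![S, rtr h1 S] ![T, rtr h2 T]
      have hrl : ∀ i : Fin 2, A (r (Sum.inl i)) := by
        intro i
        fin_cases i
        · exact hAS
        · exact hAS1
      have hrr : ∀ i : Fin 2, ∃ h ∈ M, r (Sum.inr i) = rtr h T := by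
        intro i
        fin_cases i
        · exact ⟨1, M.one_mem, hT1.symm⟩
        · exact ⟨h2, hh2, rfl⟩
      have h6 := two_card hP r ?_ ?_ ?_
      · have h7 := hP.card
        simp at h6
        omega
      · rintro (i | i) (k | k) h
        · congr 1
          fin_cases i <;> fin_cases k
          · rfl
          · exact absurd (show S = rtr h1 S from h).symm h1'
          · exact absurd (show rtr h1 S = S from h) h1'
          · rfl
        · exfalso
          obtain ⟨h', hh', h3⟩ := hrr k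
          apply hAT h' hh'
          rw [← h3, ← h]
          exact hrl i
        · exfalso
          obtain ⟨h', hh', h3⟩ := hrr i
          apply hAT h' hh'
          rw [← h3, h]
          exact hrl k
        · congr 1
          fin_cases i <;> fin_cases k
          · rfl
          · exact absurd (show T = rtr h2 T from h).symm h2'
          · exact absurd (show rtr h2 T = T from h) h2'
          · rfl
      · rintro (i | i) (k | k) h
        · apply hAc _ (hrl k)
          rw [← h]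
          exact hrl i
        · obtain ⟨h', hh', h3⟩ := hrr k
          apply hATc h' hh'
          rw [← h3, ← h]
          exact hrl i
        · obtain ⟨h', hh', h3⟩ := hrr i
          apply hATc h' hh'
          rw [← h3, h, neg_neg]
          exact hrl k
        · obtain ⟨h', hh', h3⟩ := hrr i
          obtain ⟨h'', hh'', h4⟩ := hrr k
          rw [h3, h4] at h
          exact hTT h' hh' h'' hh'' h
      · rintro (i | i)
        · obtain ⟨h, hh, h3⟩ := hrl i
          rw [h3]
          exact hP.stable h S hS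
        · obtain ⟨h', hh', h3⟩ := hrr i
          rw [h3]
          exact hP.stable h' T hTP
  have h1 : ∀ τ ∈ N, rtr τ (∑ h : M, rtr h.1 S) = ∑ h : M, rtr h.1 S := by
    rintro τ ⟨h1, hh1, h2⟩
    rw [map_sum]
    have h3 : ∀ h : M, rtr τ (rtr h.1 S) =
        rtr (MulAut.conjNormal τ h * ⟨h1, hh1⟩ : M).1 S := by
      intro h
      rw [rtr_rtr]
      change rtr (τ * h.1) S = rtr (τ * h.1 * τ⁻¹ * h1) S
      rw [← rtr_rtr (τ * h.1 * τ⁻¹), ← h2, rtr_rtr]
      congr 1
      group
    rw [Finset.sum_congr rfl (fun h _ => h3 h)]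
    exact Fintype.sum_equiv ((MulAut.conjNormal τ : M ≃* M).toEquiv.trans
      (Equiv.mulRight (⟨h1, hh1⟩ : M))) _ _ fun h => rfl
  have h2 : ∀ σ, (∑ h : M, rtr h.1 S) (c * σ) = -(∑ h : M, rtr h.1 S) σ := by
    intro σ
    rw [Finset.sum_apply, Finset.sum_apply, ← Finset.sum_neg_distrib]
    refine Finset.sum_congr rfl fun h _ => ?_
    rw [rtr_apply, rtr_apply, mul_assoc, hc]
    exact congrFun hcS (σ * h.1)
  rw [eq_smul_eps hN h1 h2]
  exact Submodule.smul_mem _ _ (eps_mem_QQ hN)

include hc hP in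
theorem absorbF (M : Subgroup G) [hMn : M.Normal] (hM : ¬ ∀ h ∈ M, ∀ f ∈ P, rtr h f = f)
    {F : G → ℚ} (hF : F ∈ Submodule.span ℚ P) (h : ∀ h ∈ M, F - rtr h F ∈ QQ c) : F ∈ QQ c := by
  classical
  have h1 : ∑ h : M, rtr h.1 F ∈ QQ c := by
    refine Submodule.span_induction (p := fun F _ => ∑ h : M, rtr h.1 F ∈ QQ c) ?_ ?_ ?_ ?_ hF
    · intro S hS
      exact sum_memF hc hP M hM hS
    · simp only [map_zero, Finset.sum_const_zero]
      exact Submodule.zero_mem _
    · intro x y _ _ hx hy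
      simp only [map_add, Finset.sum_add_distrib]
      exact Submodule.add_mem _ hx hy
    · intro a x _ hx
      simp only [map_smul, ← Finset.smul_sum]
      exact Submodule.smul_mem _ _ hx
  have h2 : ∑ h : M, (F - rtr h.1 F) ∈ QQ c := Submodule.sum_mem _ fun k _ => h k.1 k.2
  rw [Finset.sum_sub_distrib, Finset.sum_const, Finset.card_univ] at h2
  have h3 := Submodule.add_mem _ h2 h1
  rw [sub_add_cancel, ← Nat.cast_smul_eq_nsmul ℚ] at h3
  have h4 := Submodule.smul_mem _ ((Fintype.card M : ℚ)⁻¹) h3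
  rwa [smul_smul, inv_mul_cancel₀ (Nat.cast_ne_zero.2 Fintype.card_ne_zero), one_smul] at h4

include hP in
theorem rtr_mem_span (h : G) {F : G → ℚ} (hF : F ∈ Submodule.span ℚ P) :
    rtr h F ∈ Submodule.span ℚ P := by
  refine Submodule.span_induction (p := fun F _ => rtr h F ∈ Submodule.span ℚ P) ?_ ?_ ?_ ?_ hF
  · intro S hS
    exact Submodule.subset_span (hP.stable h S hS)
  · rw [map_zero]
    exact Submodule.zero_mem _
  · intro x y _ _ hx hy
    rw [map_add]
    exact Submodule.add_mem _ hx hy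
  · intro a x _ hx
    rw [map_smul]
    exact Submodule.smul_mem _ _ hx

include hc hP in
theorem sepF {ι : Type} [DecidableEq ι] (s : Finset ι) (M : ι → Subgroup G)
    (hN : ∀ i ∈ s, (M i).Normal) (hM : ∀ i ∈ s, ¬ ∀ h ∈ M i, ∀ f ∈ P, rtr h f = f) :
    ∀ (F : G → ℚ) (f : ι → G → ℚ), F ∈ Submodule.span ℚ P →
      (∀ i ∈ s, ∀ h ∈ M i, rtr h (f i) = f i) →
      F + ∑ i ∈ s, f i ∈ QQ c → F ∈ QQ c := by
  induction s using Finset.induction_on with
  | empty =>
    intro F f hF _ h
    rwa [Finset.sum_empty, add_zero] at h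
  | insert i0 s hi0 ih =>
    intro F f hF hf h
    have := hN i0 (Finset.mem_insert_self _ _)
    refine absorbF hc hP (M i0) (hM i0 (Finset.mem_insert_self _ _)) hF ?_
    intro h1 hh1
    refine ih (fun i hi => hN i (Finset.mem_insert_of_mem hi))
      (fun i hi => hM i (Finset.mem_insert_of_mem hi)) (F - rtr h1 F)
      (fun i => f i - rtr h1 (f i)) (Submodule.sub_mem _ hF (rtr_mem_span hP h1 hF)) ?_ ?_
    · intro i hi k hk
      have hni := hN i (Finset.mem_insert_of_mem hi)
      rw [map_sub, hf i (Finset.mem_insert_of_mem hi) k hk, rtr_rtr,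
        show k * h1 = h1 * (h1⁻¹ * k * h1) by group, ← rtr_rtr]
      have h2 := hni.conj_mem k hk h1⁻¹
      rw [inv_inv] at h2
      rw [hf i (Finset.mem_insert_of_mem hi) _ h2]
    · have h2 : F - rtr h1 F + ∑ i ∈ s, (f i - rtr h1 (f i)) =
          (F + ∑ i ∈ insert i0 s, f i) - rtr h1 (F + ∑ i ∈ insert i0 s, f i) := by
        rw [Finset.sum_insert hi0, map_add, map_add, map_sum,
          hf i0 (Finset.mem_insert_self _ _) h1 hh1, Finset.sum_sub_distrib]
        abel
      rw [h2]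
      exact Submodule.sub_mem _ h (rtr_mem_QQ hc h1 h)

include hc in
/-- an odd function all of whose translates are equal to it up to sign -/
theorem narrow_mem {f : G → ℚ} (h0 : f ≠ 0) (hcf : rtr c f = -f)
    (h : ∀ g, rtr g f = f ∨ rtr g f = -f) : f ∈ QQ c := by
  have hfn : f ≠ -f := fun h1 => h0 (self_eq_neg.1 h1)
  let N : Subgroup G :=
    { carrier := {τ | rtr τ f = f}
      one_mem' := rtr_one f
      mul_mem' := by
        intro τ τ' h1 h2
        change rtr (τ * τ') f = f
        rw [← rtr_rtr, h2, h1]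
      inv_mem' := by
        intro τ h1
        change rtr τ⁻¹ f = f
        have h2 : rtr τ f = f := h1
        calc rtr τ⁻¹ f = rtr τ⁻¹ (rtr τ f) := by rw [h2]
          _ = f := rtr_inv_rtr τ f }
  have hN : Imag c N := by
    constructor
    · intro h1
      have h2 : rtr c f = f := h1
      rw [hcf] at h2
      exact hfn h2.symm
    · intro τ hτ
      have h1 : rtr τ f = -f := (h τ).resolve_left hτ
      change rtr (c * τ) f = f
      rw [← rtr_rtr, h1, map_neg, hcf, neg_neg]
  have h2 : ∀ σ, f (c * σ) = -f σ := by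
    intro σ
    rw [hc]
    exact congrFun hcf σ
  rw [eq_smul_eps hN (fun τ hτ => hτ) h2]
  exact Submodule.smul_mem _ _ (eps_mem_QQ hN)

end

end

end Pool.Agent.W21.TC
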